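import Mathlib
import Pool.Agent.P.MP_267911_gt.Defs
import Pool.Agent.P.MP_267911_gt.Ex.Hyp
import Pool.Agent.P.MP_267911_gt.Ex.Pos

namespace Pool.Agent.Results.MP_267911_gt.ExactExponent

open Pool.Agent.P.MP_267911_gt

/-- For `n ≥ 2`, normality of the symmetric power `[X]^m` implies normality of the hypersymmetric
power `[X]^{≤ n}` for every ballean `X` if and only if `m ≥ 2 n - 2`. -/
theorem result (n m : ℕ) (hn : 2 ≤ n) :
    (∀ (X : Type) (𝓔 : Set (Set (X × X))),
      IsBallean 𝓔 → IsNormal (symEnt 𝓔 m) → IsNormal (hypersymEnt 𝓔 n)) ↔ 2 * n ≤ m + 2 := by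
  constructor
  · intro h
    by_contra hm
    obtain ⟨X, 𝓔, h1, h2, h3⟩ := Ex.negative hn (not_le.1 hm)
    exact h3 (h X 𝓔 h1 h2)
  · intro hm X 𝓔 hb hs
    exact Ex.positive hn hm hb hs

end Pool.Agent.Results.MP_267911_gt.ExactExponent
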